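import Pool.Agent.Helper89.OS.St2

/-!
# OS MODULE MUK
-/

set_option autoImplicit false

namespace Pool.Agent.Helper82.OS

open Matrix ComplexConjugate Pool.Agent.Helper94.YF Pool.Agent.Helper94.YG Pool.Agent.Helper89.OS

/-- A sum over all residues is the value at `0` plus the sum over the units. -/
theorem sum_residues {p : ℕ} (hp : p.Prime) [Fintype (ZMod (p ^ 1))] [Fintype (ZMod (p ^ 1))ˣ]
    (f : ZMod (p ^ 1) → ℂ) :
    ∑ w, f w = f 0 + ∑ u : (ZMod (p ^ 1))ˣ, f (u : ZMod (p ^ 1)) := by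
  classical
  have : Fact (p ^ 1).Prime := ⟨by simpa using hp⟩
  rw [← Finset.add_sum_erase Finset.univ f (Finset.mem_univ 0)]
  congr 1
  symm
  refine Finset.sum_bij (fun u _ => (u : ZMod (p ^ 1))) ?_ ?_ ?_ ?_
  · intro u _
    exact Finset.mem_erase.2 ⟨u.ne_zero, Finset.mem_univ _⟩
  · intro a _ b _ hab
    exact Units.ext hab
  · intro b hb
    exact ⟨Units.mk0 b (Finset.mem_erase.1 hb).1, Finset.mem_univ _, rfl⟩
  · intro u _
    rfl

/-- The sum of all powers of a `p`-th root of unity. -/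
theorem sum_pow_val {p : ℕ} (hp : p.Prime) [Fintype (ZMod (p ^ 1))] (θ : ℂ) (h : θ ^ (p ^ 1) = 1) :
    ∑ w : ZMod (p ^ 1), θ ^ w.val = if θ = 1 then (p : ℂ) else 0 := by
  classical
  have : NeZero (p ^ 1) := ⟨by simpa using hp.ne_zero⟩
  have h1 : ∑ w : ZMod (p ^ 1), θ ^ w.val = ∑ i ∈ Finset.range (p ^ 1), θ ^ i := by
    refine Finset.sum_bij (fun w _ => w.val) ?_ ?_ ?_ ?_
    · intro w _
      exact Finset.mem_range.2 (ZMod.val_lt w)
    · intro a _ b _ hab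
      exact ZMod.val_injective _ hab
    · intro b hb
      exact ⟨(b : ZMod (p ^ 1)), Finset.mem_univ _, ZMod.val_cast_of_lt (Finset.mem_range.1 hb)⟩
    · intro w _
      rfl
  rw [h1]
  split_ifs with hθ
  · subst hθ
    simp
  · have h2 : (∑ i ∈ Finset.range (p ^ 1), θ ^ i) * (θ - 1) = 0 := by
      rw [geom_sum_mul, h, sub_self]
    rcases mul_eq_zero.1 h2 with h3 | h3
    · exact h3
    · exact absurd (sub_eq_zero.1 h3) hθ

theorem mem_Orb {I : Type} [Fintype I] [DecidableEq I] {p : ℕ} (X : PD I p 1) (k i : I) :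
    i ∈ Orb X k ↔ ∃ c, X.pi c k = i := by
  simp only [Orb, Finset.mem_filter, Finset.mem_univ, true_and]

theorem fiber_card {I : Type} [Fintype I] [DecidableEq I] {p : ℕ} (X : PD I p 1) (k : I)
    [Fintype (ZMod (p ^ 1))ˣ] (i : I) (hi : i ∈ Orb X k) :
    (Finset.univ.filter fun c => X.pi c k = i).card =
      (Finset.univ.filter fun c => X.pi c k = k).card := by
  obtain ⟨c0, hc0⟩ := (mem_Orb X k i).1 hi
  refine Finset.card_nbij' (fun c => c0⁻¹ * c) (fun c => c0 * c) ?_ ?_ ?_ ?_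
  · intro c hc
    have hc' := (Finset.mem_filter.1 (Finset.mem_coe.1 hc)).2
    refine Finset.mem_coe.2 (Finset.mem_filter.2 ⟨Finset.mem_univ _, ?_⟩)
    show X.pi (c0⁻¹ * c) k = k
    rw [X.pi_mul, hc', ← hc0, ← X.pi_mul, inv_mul_cancel, X.pi_one]
  · intro c hc
    have hc' := (Finset.mem_filter.1 (Finset.mem_coe.1 hc)).2
    refine Finset.mem_coe.2 (Finset.mem_filter.2 ⟨Finset.mem_univ _, ?_⟩)
    show X.pi (c0 * c) k = i
    rw [X.pi_mul, hc', hc0]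
  · intro c _
    show c0 * (c0⁻¹ * c) = c
    rw [mul_inv_cancel_left]
  · intro c _
    show c0⁻¹ * (c0 * c) = c
    rw [inv_mul_cancel_left]

theorem sum_orb {I : Type} [Fintype I] [DecidableEq I] {p : ℕ} (X : PD I p 1) (k : I)
    [Fintype (ZMod (p ^ 1))ˣ] (F : I → ℂ) :
    ∑ c : (ZMod (p ^ 1))ˣ, F (X.pi c k) =
      ((Finset.univ.filter fun c => X.pi c k = k).card : ℂ) * ∑ i ∈ Orb X k, F i := by
  have h1 : ∀ c ∈ (Finset.univ : Finset (ZMod (p ^ 1))ˣ), X.pi c k ∈ Orb X k := by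
    intro c _
    exact (mem_Orb X k _).2 ⟨c, rfl⟩
  rw [← Finset.sum_fiberwise_of_maps_to h1, Finset.mul_sum]
  refine Finset.sum_congr rfl fun i hi => ?_
  rw [← fiber_card X k i hi]
  have h2 : ∀ c ∈ (Finset.univ.filter fun c => X.pi c k = i), F (X.pi c k) = F i := by
    intro c hc
    rw [(Finset.mem_filter.1 hc).2]
  rw [Finset.sum_congr rfl h2, Finset.sum_const, nsmul_eq_mul]

/-- The part (a) of the proof. -/
theorem part_a {I : Type} [Fintype I] [DecidableEq I] {p : ℕ} (X : PD I p 1) (k : I)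
    [Fintype (ZMod (p ^ 1))ˣ] (htk : X.t k = 1) [DecidablePred fun j => X.t j = 1] :
    (∑ j, if X.t j = 1 then ((‖X.s k j‖ ^ 2 : ℝ) : ℂ) else 0) =
      (p : ℂ) + ∑ c, X.s k (X.pi c k) := by
  classical
  have hp := X.prime
  have : NeZero (p ^ 1) := ⟨by simpa using hp.ne_zero⟩
  have hp0 : (p : ℂ) ≠ 0 := by exact_mod_cast hp.ne_zero
  have hk't : X.t (X.pi (-1) k) = 1 := by rw [X.pi_t, htk, one_pow]
  have hnorm : ∀ j, ((‖X.s k j‖ ^ 2 : ℝ) : ℂ) = X.s k j * X.s j (X.pi (-1) k) := by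
    intro j
    rw [X.s_symm j (X.pi (-1) k), X.pi_s, ← X.conj_s, Complex.mul_conj']
    push_cast
    rfl
  have hsum0 : ∑ j, X.s k j * X.s j (X.pi (-1) k) = (p : ℂ) ^ 2 := by
    rw [X.weil0, ← X.pi_mul, neg_mul_neg, one_mul, X.pi_one, if_pos rfl]
  have hunit : ∀ w : (ZMod (p ^ 1))ˣ,
      ∑ j, X.t j ^ (w : ZMod (p ^ 1)).val * (X.s k j * X.s j (X.pi (-1) k)) =
        (p : ℂ) * X.s k (X.pi (w⁻¹ * (-1)) k) := by
    intro w
    rw [X.weil, htk, hk't, one_pow, X.pi_mul]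
    ring
  have hbij : ∑ w : (ZMod (p ^ 1))ˣ, X.s k (X.pi (w⁻¹ * (-1)) k) = ∑ c, X.s k (X.pi c k) := by
    refine Finset.sum_nbij' (fun w => w⁻¹ * (-1)) (fun c => (c * (-1))⁻¹) ?_ ?_ ?_ ?_ ?_
    · intro w _
      exact Finset.mem_univ _
    · intro w _
      exact Finset.mem_univ _
    · intro w _
      show (w⁻¹ * (-1) * (-1))⁻¹ = w
      rw [mul_assoc, neg_mul_neg, one_mul, mul_one, inv_inv]
    · intro c _
      show ((c * (-1))⁻¹)⁻¹ * (-1) = c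
      rw [inv_inv, mul_assoc, neg_mul_neg, one_mul, mul_one]
    · intro w _
      rfl
  have hmain : ∑ w : ZMod (p ^ 1), ∑ j, X.t j ^ w.val * (X.s k j * X.s j (X.pi (-1) k)) =
      (p : ℂ) ^ 2 + (p : ℂ) * ∑ c, X.s k (X.pi c k) := by
    rw [sum_residues hp]
    congr 1
    · rw [← hsum0]
      refine Finset.sum_congr rfl fun j _ => ?_
      rw [ZMod.val_zero, pow_zero, one_mul]
    · rw [← hbij, Finset.mul_sum]
      exact Finset.sum_congr rfl fun w _ => hunit w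
  have hleft : ∑ w : ZMod (p ^ 1), ∑ j, X.t j ^ w.val * (X.s k j * X.s j (X.pi (-1) k)) =
      (p : ℂ) * ∑ j, if X.t j = 1 then ((‖X.s k j‖ ^ 2 : ℝ) : ℂ) else 0 := by
    rw [Finset.sum_comm, Finset.mul_sum]
    refine Finset.sum_congr rfl fun j _ => ?_
    rw [← Finset.sum_mul, sum_pow_val hp _ (X.t_pow j), hnorm j]
    by_cases ht : X.t j = 1
    · rw [if_pos ht, if_pos ht]
    · rw [if_neg ht, if_neg ht, zero_mul, mul_zero]
  have h3 := hleft.symm.trans hmain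
  have h4 : (p : ℂ) * (∑ j, if X.t j = 1 then ((‖X.s k j‖ ^ 2 : ℝ) : ℂ) else 0) =
      (p : ℂ) * ((p : ℂ) + ∑ c, X.s k (X.pi c k)) := by
    rw [h3]; ring
  exact mul_left_cancel₀ hp0 h4

theorem hMUK : StMUK := by
  classical
  intro hTSU hAMG hSTL hHEC hMZZ hRAT I _ _ p _ X Q hB k hyk htk hko hy2 hcard
  obtain ⟨h1, -⟩ := hTSU hSTL hHEC hMZZ hRAT I p X Q hB k hyk htk hko
  have h1k := h1 k hyk htk hko
  have hp := X.prime
  have : NeZero (p ^ 1) := ⟨by simpa using hp.ne_zero⟩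
  -- the orbit and the stabiliser
  have horb := sum_orb X k (fun i => X.s k i)
  have hcount := sum_orb X k (fun _ => (1 : ℂ))
  have hunits : ∑ _c : (ZMod (p ^ 1))ˣ, (1 : ℂ) = (p : ℂ) - 1 := by
    rw [Finset.sum_const, Finset.card_univ, ZMod.card_units_eq_totient, pow_one,
      Nat.totient_prime hp, nsmul_eq_mul, mul_one, Nat.cast_sub hp.one_lt.le, Nat.cast_one]
  have hkO : k ∈ Orb X k := (mem_Orb X k k).2 ⟨1, X.pi_one k⟩
  have hgpos : 0 < (Orb X k).card := Finset.card_pos.2 ⟨k, hkO⟩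
  have hNpos : 0 < (Finset.univ.filter fun c => X.pi c k = k).card :=
    Finset.card_pos.2 ⟨1, Finset.mem_filter.2 ⟨Finset.mem_univ _, X.pi_one k⟩⟩
  set N : ℕ := (Finset.univ.filter fun c => X.pi c k = k).card with hN
  set g : ℕ := (Orb X k).card with hg
  have hgC : (p : ℂ) - (X.y X.o : ℂ) = (g : ℂ) := by
    have := congrArg (fun z : ℤ => (z : ℂ)) hcard
    simp only [Int.cast_natCast, Int.cast_sub] at this
    exact this.symm
  have hNg : (p : ℂ) - 1 = (N : ℂ) * (g : ℂ) := by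
    rw [← hunits, hcount]
    simp [hg]
  have hyy : (X.y k : ℂ) * (X.y k : ℂ) = 1 := by
    have := congrArg (fun z : ℤ => (z : ℂ)) hy2
    simp only [Int.cast_pow, Int.cast_one] at this
    rw [← this]; ring
  have hg0 : (g : ℂ) ≠ 0 := by exact_mod_cast hgpos.ne'
  have hN0 : (N : ℂ) ≠ 0 := by exact_mod_cast hNpos.ne'
  have hsumc : ∑ c, X.s k (X.pi c k) = ((p : ℂ) - 1) * (N : ℂ) := by
    rw [hgC, hyy] at h1k
    have h5 : (g : ℂ) * ((p : ℂ) * (N : ℂ) - ∑ c, X.s k (X.pi c k)) = (g : ℂ) * (N : ℂ) := by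
      rw [h1k, mul_one, hNg]; ring
    have h6 := mul_left_cancel₀ hg0 h5
    linear_combination -h6
  have hsO : ∑ i ∈ Orb X k, X.s k i = (p : ℂ) - 1 := by
    rw [hsumc] at horb
    have h7 : (N : ℂ) * ((p : ℂ) - 1) = (N : ℂ) * ∑ i ∈ Orb X k, X.s k i := by
      rw [← horb]; ring
    exact (mul_left_cancel₀ hN0 h7).symm
  -- real numbers
  have hpR : (1 : ℝ) ≤ (p : ℝ) := by exact_mod_cast hp.one_lt.le
  have hNgR : (p : ℝ) - 1 = (N : ℝ) * (g : ℝ) := by exact_mod_cast hNg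
  have hgR : (0 : ℝ) < (g : ℝ) := by exact_mod_cast hgpos
  have hNR : (0 : ℝ) < (N : ℝ) := by exact_mod_cast hNpos
  have hnormsum : (p : ℝ) - 1 ≤ ∑ i ∈ Orb X k, ‖X.s k i‖ := by
    have h8 : ‖∑ i ∈ Orb X k, X.s k i‖ = (p : ℝ) - 1 := by
      rw [hsO]
      have : (p : ℂ) - 1 = (((p : ℝ) - 1 : ℝ) : ℂ) := by push_cast; rfl
      rw [this, Complex.norm_real, Real.norm_eq_abs, abs_of_nonneg (by linarith)]
    rw [← h8]
    exact norm_sum_le _ _
  have hcs : ((p : ℝ) - 1) * (N : ℝ) ≤ ∑ i ∈ Orb X k, ‖X.s k i‖ ^ 2 := by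
    have h9 : (∑ i ∈ Orb X k, ‖X.s k i‖) ^ 2 ≤ (g : ℝ) * ∑ i ∈ Orb X k, ‖X.s k i‖ ^ 2 := by
      have := @sq_sum_le_card_mul_sum_sq I ℝ _ _ _ _ (Orb X k) (fun i => ‖X.s k i‖)
      simpa [hg] using this
    have h10 : ((p : ℝ) - 1) ^ 2 ≤ (∑ i ∈ Orb X k, ‖X.s k i‖) ^ 2 :=
      pow_le_pow_left₀ (by linarith) hnormsum 2
    have h11 : (g : ℝ) * (((p : ℝ) - 1) * (N : ℝ)) ≤ (g : ℝ) * ∑ i ∈ Orb X k, ‖X.s k i‖ ^ 2 := by
      calc (g : ℝ) * (((p : ℝ) - 1) * (N : ℝ)) = ((p : ℝ) - 1) ^ 2 := by rw [hNgR]; ring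
        _ ≤ _ := h10.trans h9
    exact le_of_mul_le_mul_left h11 hgR
  have hA : (∑ j, if X.t j = 1 then ‖X.s k j‖ ^ 2 else 0) = (p : ℝ) + ((p : ℝ) - 1) * (N : ℝ) := by
    have h12 := part_a X k htk
    rw [hsumc] at h12
    have h13 : (((∑ j, if X.t j = 1 then ‖X.s k j‖ ^ 2 else 0 : ℝ)) : ℂ) =
        (((p : ℝ) + ((p : ℝ) - 1) * (N : ℝ) : ℝ) : ℂ) := by
      rw [Complex.ofReal_sum]
      have h14 : ∀ j ∈ (Finset.univ : Finset I), (((if X.t j = 1 then ‖X.s k j‖ ^ 2 else 0 : ℝ)) : ℂ) =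
          if X.t j = 1 then ((‖X.s k j‖ ^ 2 : ℝ) : ℂ) else 0 := by
        intro j _
        split_ifs
        · rfl
        · exact Complex.ofReal_zero
      rw [Finset.sum_congr rfl h14, h12]
      push_cast
      rfl
    exact Complex.ofReal_injective h13
  have hOt : ∀ i ∈ Orb X k, X.t i = 1 := by
    intro i hi
    obtain ⟨c, hc⟩ := (mem_Orb X k i).1 hi
    rw [← hc, X.pi_t, htk, one_pow]
  set S : Finset I := Finset.univ.filter fun j => X.y j ≠ 0 ∧ X.t j = 1 ∧ j ∉ Orb X k with hS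
  have hSmem : ∀ j, j ∈ S ↔ (X.y j ≠ 0 ∧ X.t j = 1 ∧ j ∉ Orb X k) := by
    intro j
    rw [hS, Finset.mem_filter]
    exact ⟨fun h => h.2, fun h => ⟨Finset.mem_univ _, h⟩⟩
  have hst : ∀ c, ∀ j ∈ S, X.pi c j ∈ S := by
    intro c j hj
    obtain ⟨ha, hb, hc⟩ := (hSmem j).1 hj
    refine (hSmem _).2 ⟨by rw [X.pi_y]; exact ha, by rw [X.pi_t, hb, one_pow], ?_⟩
    intro hmem
    apply hc
    obtain ⟨c', hc'⟩ := (mem_Orb X k _).1 hmem
    refine (mem_Orb X k j).2 ⟨c⁻¹ * c', ?_⟩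
    rw [X.pi_mul, hc', ← X.pi_mul, inv_mul_cancel, X.pi_one]
  have hamg := hAMG hRAT I p 1 X Q hB k S hyk (fun j hj => ((hSmem j).1 hj).1) hst
  have hdisj : Disjoint (Orb X k) S := by
    rw [Finset.disjoint_left]
    intro i hi hiS
    exact ((hSmem i).1 hiS).2.2 hi
  have hbound : (∑ i ∈ Orb X k, ‖X.s k i‖ ^ 2) + ∑ j ∈ S, ‖X.s k j‖ ^ 2 ≤
      ∑ j, if X.t j = 1 then ‖X.s k j‖ ^ 2 else 0 := by
    rw [← Finset.sum_union hdisj]
    have h15 : ∑ j ∈ Orb X k ∪ S, ‖X.s k j‖ ^ 2 =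
        ∑ j ∈ Orb X k ∪ S, if X.t j = 1 then ‖X.s k j‖ ^ 2 else 0 := by
      refine Finset.sum_congr rfl fun j hj => ?_
      have : X.t j = 1 := by
        rcases Finset.mem_union.1 hj with h | h
        · exact hOt j h
        · exact ((hSmem j).1 h).2.1
      rw [if_pos this]
    rw [h15]
    refine Finset.sum_le_sum_of_subset_of_nonneg (Finset.subset_univ _) fun j _ _ => ?_
    split_ifs
    · positivity
    · exact le_refl 0
  have hfin : (S.card : ℝ) ≤ (p : ℝ) := by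
    rw [hA] at hbound
    linarith
  exact_mod_cast hfin

end Pool.Agent.Helper82.OS
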